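import Pool.Agent.Helper524.GL.Tensor

set_option autoImplicit false

namespace Pool.Agent.Results.MP_7eddf1_co.PowerSaving

/-- `a <_2 b`: strictly smaller in at least two of the three coordinates. -/
def TwoLess (a b : Fin 3 → ℕ) : Prop :=
  2 ≤ (Finset.univ.filter (fun i : Fin 3 => a i < b i)).card

/-- The lengths of 2-increasing sequences of triples in `{1, ..., n}^3`. -/
def lengths (n : ℕ) : Set ℕ :=
  {m : ℕ | ∃ s : Fin m → (Fin 3 → ℕ), (∀ k i, 1 ≤ s k i ∧ s k i ≤ n) ∧ ∀ j k, j < k → TwoLess (s j) (s k)}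

/-- `F n`: the largest length of a 2-increasing sequence of triples in `{1, ..., n}^3`. -/
noncomputable def F (n : ℕ) : ℕ := sSup (lengths n)

lemma twoLess_cases {a b : Fin 3 → ℕ} (h : TwoLess a b) :
    (a 0 < b 0 ∧ a 1 < b 1) ∨ (a 0 < b 0 ∧ a 2 < b 2) ∨ (a 1 < b 1 ∧ a 2 < b 2) := by
  unfold TwoLess at h
  by_contra hcon
  push Not at hcon
  obtain ⟨h1, h2, h3⟩ := hcon
  have hsub : ∀ i j : Fin 3, i ∈ Finset.univ.filter (fun i : Fin 3 => a i < b i) →
      j ∈ Finset.univ.filter (fun i : Fin 3 => a i < b i) → i = j := by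
    intro i j hi hj
    rw [Finset.mem_filter] at hi hj
    have hi := hi.2
    have hj := hj.2
    fin_cases i <;> fin_cases j <;> simp only [Fin.zero_eta, Fin.mk_one, Fin.reduceFinMk] at hi hj ⊢
    · exact absurd hj (not_lt.2 (h1 hi))
    · exact absurd hj (not_lt.2 (h2 hi))
    · exact absurd hi (not_lt.2 (h1 hj))
    · exact absurd hj (not_lt.2 (h3 hi))
    · exact absurd hi (not_lt.2 (h2 hj))
    · exact absurd hi (not_lt.2 (h3 hj))
  have : (Finset.univ.filter (fun i : Fin 3 => a i < b i)).card ≤ 1 :=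
    Finset.card_le_one.2 (fun i hi j hj => hsub i j hi hj)
  omega

/-- A power saving for 2-increasing sequences, for every sequence. -/
theorem seq_bound : ∃ δ : ℝ, 0 < δ ∧ ∀ n m : ℕ, ∀ s : Fin m → (Fin 3 → ℕ),
    (∀ k i, 1 ≤ s k i ∧ s k i ≤ n) → (∀ j k, j < k → TwoLess (s j) (s k)) →
    (m : ℝ) ≤ (n : ℝ) ^ (2 - δ) := by
  classical
  obtain ⟨δ, hδ, h⟩ := GoLo.power_saving
  refine ⟨δ, hδ, ?_⟩
  intro n m s hs hinc
  set f : Fin m → ℕ × ℕ × ℕ := fun k => (s k 0 - 1, s k 1 - 1, s k 2 - 1) with hf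
  have hcmp : ∀ j k, j < k → GoLo.Cmp (f k) (f j) := by
    intro j k hjk
    have h1 := twoLess_cases (hinc j k hjk)
    have a0 := hs j 0
    have a1 := hs j 1
    have a2 := hs j 2
    have b0 := hs k 0
    have b1 := hs k 1
    have b2 := hs k 2
    unfold GoLo.Cmp
    simp only [hf]
    omega
  have hinj : Function.Injective f := by
    intro j k hjk
    by_contra hne
    rcases lt_or_gt_of_ne hne with h1 | h1
    · have := hcmp j k h1
      rw [hjk] at this
      unfold GoLo.Cmp at this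
      omega
    · have := hcmp k j h1
      rw [hjk] at this
      unfold GoLo.Cmp at this
      omega
  have key := h n (Finset.univ.image f) (by
    intro t ht
    rw [Finset.mem_image] at ht
    obtain ⟨k, _, rfl⟩ := ht
    have b0 := hs k 0
    have b1 := hs k 1
    have b2 := hs k 2
    simp only [hf]
    omega) (by
    intro t ht u hu htu
    rw [Finset.mem_image] at ht hu
    obtain ⟨j, _, rfl⟩ := ht
    obtain ⟨k, _, rfl⟩ := hu
    have hne : j ≠ k := by rintro rfl; exact htu rfl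
    rcases lt_or_gt_of_ne hne with h1 | h1
    · have := hcmp j k h1
      unfold GoLo.Cmp at this ⊢
      omega
    · exact hcmp k j h1)
  rw [Finset.card_image_of_injective _ hinj, Finset.card_univ, Fintype.card_fin] at key
  exact key

lemma lengths_bdd (n : ℕ) : BddAbove (lengths n) := by
  obtain ⟨δ, _, h⟩ := seq_bound
  refine ⟨⌊(n:ℝ)^(2-δ)⌋₊, ?_⟩
  rintro m ⟨s, h1, h2⟩
  exact Nat.le_floor (h n m s h1 h2)

lemma zero_mem (n : ℕ) : 0 ∈ lengths n := ⟨fun k => k.elim0, fun k => k.elim0, fun k => k.elim0⟩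

/-- There is `δ > 0` with `F n ≤ n ^ (2 - δ)` for every `n`; here `F n` is the maximum length of a
2-increasing sequence of triples in `{1, ..., n}^3` (the supremum is attained). -/
theorem result : (∀ n : ℕ, IsGreatest (lengths n) (F n)) ∧
    ∃ δ : ℝ, 0 < δ ∧ ∀ n : ℕ, (F n : ℝ) ≤ (n : ℝ) ^ (2 - δ) := by
  have hg : ∀ n : ℕ, IsGreatest (lengths n) (F n) := fun n =>
    ⟨Nat.sSup_mem ⟨0, zero_mem n⟩ (lengths_bdd n), fun m hm => le_csSup (lengths_bdd n) hm⟩
  refine ⟨hg, ?_⟩
  obtain ⟨δ, hδ, h⟩ := seq_bound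
  refine ⟨δ, hδ, fun n => ?_⟩
  obtain ⟨s, h1, h2⟩ := (hg n).1
  exact h n (F n) s h1 h2

end Pool.Agent.Results.MP_7eddf1_co.PowerSaving
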